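import Mathlib
import Pool.Agent.P.MP_d900b7_an.E.Defs
import Pool.Agent.P.MP_d900b7_an.E.Main

namespace Pool.Agent.Results.MP_d900b7_an.Elastic

open Pool.Agent.P.MP_d900b7_an

universe u v

/-- For a real Banach space `X` isomorphic to a subspace of `C(K)` with `K` scattered and compact
(for example a Kunen compact): finite dimension, finite Banach-Mazur diameter and elasticity are
equivalent. -/
theorem result (K : Type v) [TopologicalSpace K] [CompactSpace K] [T2Space K] (hK : IsScattered K)
    (X : Type u) [NormedAddCommGroup X] [NormedSpace ℝ X] [CompleteSpace X]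
    (hX : ∃ S : Submodule ℝ C(K, ℝ), Nonempty (X ≃L[ℝ] S)) :
    List.TFAE [FiniteDimensional ℝ X, bmDiam X < ⊤, IsElastic X] :=
  E.tfae hK hX

end Pool.Agent.Results.MP_d900b7_an.Elastic
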