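import Mathlib
import Pool.Agent.P.MP_d900b7_an.Defs
import Pool.Agent.P.MP_d900b7_an.Main

namespace Pool.Agent.Results.MP_d900b7_an.InfiniteDiameter

open Pool.Agent.P.MP_d900b7_an

universe u

/-- The Banach-Mazur diameter of `C(K)` is infinite for every Kunen compact `K`, and in fact for
every infinite compact Hausdorff space `K`. -/
theorem result (K : Type u) [TopologicalSpace K] [CompactSpace K] [T2Space K]
    (hK : IsKunenCompact K ∨ Infinite K) : bmDiam C(K, ℝ) = ⊤ := by
  have : Infinite K := hK.elim (infinite_of_kunen K) id
  exact bmDiam_eq_top K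

end Pool.Agent.Results.MP_d900b7_an.InfiniteDiameter
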